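import Pool.Agent.D0H94.T13.StmD
import Pool.Agent.D0H74.FM.Conc

/-!
# FM, module MASS
-/

set_option autoImplicit false

open Filter Topology Finset

namespace Pool.Agent.D0H21.FM

open Pool.Agent.D0H94.T13

/-- the ratio of the two numbers of ordered sums -/
theorem kc_ratio (n m : ℕ) (hn : 1 ≤ n) : kc m (n - 1) ≤ kc (m + 1) (n + 1) ∧
    ((m : ℝ) + 1) * kc m (n - 1) = (3 * (m : ℝ) + 2 - n) * kc (m + 1) (n + 1) := by
  unfold kc
  by_cases h : 2 * m + 1 ≤ n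
  · rw [if_pos (by omega), if_pos (by omega)]
    obtain ⟨j, rfl⟩ := Nat.exists_eq_add_of_le h
    have e1 : 2 * m + 1 + j - 1 - 2 * m = j := by omega
    have e2 : 2 * m + 1 + j + 1 - 2 * (m + 1) = j := by omega
    rw [e1, e2]
    refine ⟨Nat.choose_le_choose j (by omega), ?_⟩
    have h1 := Nat.choose_mul_succ_eq m j
    by_cases hj : j ≤ m + 1
    · have h2 : ((m + 1 - j : ℕ) : ℝ) = (m : ℝ) + 1 - j := by
        rw [Nat.cast_sub hj]
        push_cast
        ring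
      have h3 : (m.choose j : ℝ) * (m + 1) = ((m + 1).choose j : ℝ) * ((m + 1 - j : ℕ) : ℝ) := by
        exact_mod_cast h1
      rw [h2] at h3
      push_cast
      linear_combination h3
    · rw [Nat.choose_eq_zero_of_lt (by omega : m + 1 < j), Nat.choose_eq_zero_of_lt (by omega : m < j)]
      simp
  · rw [if_neg (by omega), if_neg (by omega)]
    simp

theorem ZZ_pos (h : ℕ → ℝ) (hpos : ∀ m, 0 < h m) (n : ℕ) (hn : 1 ≤ n) : 0 < ZZ h n := by
  unfold ZZ
  apply Finset.sum_pos'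
  · intro m _
    have := hpos m
    positivity
  · obtain ⟨k, hk⟩ : ∃ k, k = (n + 1) / 2 := ⟨_, rfl⟩
    refine ⟨k - 1, Finset.mem_range.2 (by omega), ?_⟩
    have h1 : 0 < kc (k - 1 + 1) (n + 1) := by
      unfold kc
      rw [if_pos (by omega)]
      exact Nat.choose_pos (by omega)
    have h2 : (0 : ℝ) < kc (k - 1 + 1) (n + 1) := by exact_mod_cast h1
    exact mul_pos (hpos _) h2

theorem log_div_sqrt : Tendsto (fun n : ℕ => Real.log n / √(n : ℝ)) atTop (𝓝 0) := by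
  have h1 : Tendsto (fun x : ℝ => Real.log x / x ^ (1 / 2 : ℝ)) atTop (𝓝 0) :=
    (isLittleO_log_rpow_atTop (by norm_num)).tendsto_div_nhds_zero
  have h2 := h1.comp (tendsto_natCast_atTop_atTop (R := ℝ))
  refine h2.congr fun n => ?_
  simp only [Function.comp_apply]
  rw [Real.sqrt_eq_rpow]

theorem exp_log_sq (A : ℝ) (hA : 0 < A) :
    Tendsto (fun n : ℕ => Real.exp (-(A * Real.log n ^ 2))) atTop (𝓝 0) := by
  apply Real.tendsto_exp_neg_atTop_nhds_zero.comp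
  apply Tendsto.const_mul_atTop hA
  exact (tendsto_pow_atTop (by norm_num)).comp
    (Real.tendsto_log_atTop.comp tendsto_natCast_atTop_atTop)

/-- the error on the window -/
theorem near_bound (μ : ℝ) (hμ : 1 < μ) (n m : ℕ) (hn : 1 ≤ n) (R : ℝ)
    (hR : |(m : ℝ) - (1 + μ) / (3 + 2 * μ) * n| ≤ R) (hR2 : R ≤ (1 + μ) / (3 + 2 * μ) * n / 2) :
    |(kc m (n - 1) : ℝ) - μ / (1 + μ) * kc (m + 1) (n + 1)| ≤
      (R + 1) / ((1 + μ) / (3 + 2 * μ) * ((1 + μ) / (3 + 2 * μ) * n / 2)) * kc (m + 1) (n + 1) := by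
  have hμ0 : 0 < μ := by linarith
  obtain ⟨c, hc⟩ : ∃ c, c = (1 + μ) / (3 + 2 * μ) := ⟨_, rfl⟩
  rw [← hc] at hR hR2 ⊢
  have hc0 : 0 < c := by rw [hc]; positivity
  have hc1 : c ≤ 1 := by
    rw [hc, div_le_one (by positivity)]
    linarith
  have hθ : μ / (1 + μ) = 3 - 1 / c := by
    rw [hc]
    field_simp
    ring
  have hn0 : (1 : ℝ) ≤ n := by exact_mod_cast hn
  obtain ⟨h1, h2⟩ := kc_ratio n m hn
  have hm0 : (0 : ℝ) < m + 1 := by positivity
  have hb0 : (0 : ℝ) ≤ kc (m + 1) (n + 1) := by positivity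
  have e1 : (kc m (n - 1) : ℝ) - μ / (1 + μ) * kc (m + 1) (n + 1) =
      (((m : ℝ) - c * n) + (1 - c)) / (c * (m + 1)) * kc (m + 1) (n + 1) := by
    rw [hθ]
    have h3 : (kc m (n - 1) : ℝ) = (3 * (m : ℝ) + 2 - n) * kc (m + 1) (n + 1) / (m + 1) := by
      rw [← h2]
      field_simp
    rw [h3]
    field_simp
    ring
  rw [e1, abs_mul, abs_of_nonneg hb0]
  apply mul_le_mul_of_nonneg_right _ hb0
  rw [abs_div, abs_of_pos (by positivity : 0 < c * ((m : ℝ) + 1))]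
  have hR0 : 0 ≤ R := (abs_nonneg _).trans hR
  have h4 : |(m : ℝ) - c * n + (1 - c)| ≤ R + 1 := by
    refine (abs_add_le _ _).trans ?_
    have : |1 - c| ≤ 1 := by
      rw [abs_of_nonneg (by linarith)]
      linarith
    linarith
  have h5 : c * n / 2 ≤ (m : ℝ) + 1 := by
    have := (abs_le.1 hR).1
    linarith
  calc |(m : ℝ) - c * n + (1 - c)| / (c * (m + 1)) ≤ (R + 1) / (c * (m + 1)) := by gcongr
    _ ≤ (R + 1) / (c * (c * n / 2)) := by gcongr

theorem mass_bound (μ : ℝ) (hμ : 1 < μ) (h : ℕ → ℝ) (hpos : ∀ m, 0 < h m) (L : ℝ) (hL : 0 ≤ L) (n : ℕ)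
    (hn : 1 ≤ n)
    (hR2 : L * (√(n : ℝ) * Real.log n) ≤ (1 + μ) / (3 + 2 * μ) * n / 2) (δ : ℝ)
    (hfar : ∑ m ∈ (range (n + 1)).filter (fun m : ℕ =>
      L * (√(n : ℝ) * Real.log n) ≤ |(m : ℝ) - (1 + μ) / (3 + 2 * μ) * n|),
      h m * kc (m + 1) (n + 1) ≤ δ * ZZ h n) :
    |(∑ m ∈ range (n + 1), h m * kc m (n - 1)) / ZZ h n - μ / (1 + μ)| ≤
      (L * (√(n : ℝ) * Real.log n) + 1) /
        ((1 + μ) / (3 + 2 * μ) * ((1 + μ) / (3 + 2 * μ) * n / 2)) + δ := by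
  have hμ0 : 0 < μ := by linarith
  have hZ := ZZ_pos h hpos n hn
  obtain ⟨θ, hθ⟩ : ∃ θ, θ = μ / (1 + μ) := ⟨_, rfl⟩
  have hθ0 : 0 ≤ θ := by rw [hθ]; positivity
  have hθ1 : θ ≤ 1 := by
    rw [hθ, div_le_one (by positivity)]
    linarith
  obtain ⟨R, hR⟩ : ∃ R, R = L * (√(n : ℝ) * Real.log n) := ⟨_, rfl⟩
  obtain ⟨η, hη⟩ : ∃ η, η = (R + 1) / ((1 + μ) / (3 + 2 * μ) * ((1 + μ) / (3 + 2 * μ) * n / 2)) := ⟨_, rfl⟩
  rw [← hR] at hR2 hfar ⊢
  rw [← hη, ← hθ]
  have e1 : (∑ m ∈ range (n + 1), h m * kc m (n - 1)) / ZZ h n - θ =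
      (∑ m ∈ range (n + 1), h m * ((kc m (n - 1) : ℝ) - θ * kc (m + 1) (n + 1))) / ZZ h n := by
    rw [eq_div_iff hZ.ne', sub_mul, div_mul_cancel₀ _ hZ.ne']
    unfold ZZ
    rw [Finset.mul_sum, ← Finset.sum_sub_distrib]
    refine Finset.sum_congr rfl fun m _ => ?_
    ring
  rw [e1, abs_div, abs_of_pos hZ, div_le_iff₀ hZ]
  refine (Finset.abs_sum_le_sum_abs _ _).trans ?_
  rw [← Finset.sum_filter_add_sum_filter_not (range (n + 1)) (fun m : ℕ =>
    R ≤ |(m : ℝ) - (1 + μ) / (3 + 2 * μ) * n|), add_comm, add_mul]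
  apply add_le_add
  · have h1 : ∀ m ∈ (range (n + 1)).filter (fun m : ℕ => ¬ R ≤ |(m : ℝ) - (1 + μ) / (3 + 2 * μ) * n|),
        |h m * ((kc m (n - 1) : ℝ) - θ * kc (m + 1) (n + 1))| ≤ η * (h m * kc (m + 1) (n + 1)) := by
      intro m hm
      rw [Finset.mem_filter, not_le] at hm
      rw [abs_mul, abs_of_pos (hpos m)]
      have h2 := near_bound μ hμ n m hn R hm.2.le hR2
      rw [← hθ, ← hη] at h2
      calc h m * |(kc m (n - 1) : ℝ) - θ * kc (m + 1) (n + 1)| ≤ h m * (η * kc (m + 1) (n + 1)) :=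
            mul_le_mul_of_nonneg_left h2 (hpos m).le
        _ = _ := by ring
    refine (Finset.sum_le_sum h1).trans ?_
    rw [← Finset.mul_sum]
    have hn0 : (1 : ℝ) ≤ n := by exact_mod_cast hn
    have hR0 : 0 ≤ R := by
      rw [hR]
      have := Real.log_nonneg hn0
      positivity
    have hη0 : 0 ≤ η := by
      rw [hη]
      positivity
    apply mul_le_mul_of_nonneg_left _ hη0
    unfold ZZ
    apply Finset.sum_le_sum_of_subset_of_nonneg (Finset.filter_subset _ _)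
    intro m _ _
    have := hpos m
    positivity
  · refine le_trans (Finset.sum_le_sum ?_) hfar
    intro m _
    rw [abs_mul, abs_of_pos (hpos m)]
    apply mul_le_mul_of_nonneg_left _ (hpos m).le
    obtain ⟨h1, -⟩ := kc_ratio n m hn
    have h2 : (kc m (n - 1) : ℝ) ≤ kc (m + 1) (n + 1) := by exact_mod_cast h1
    have h3 : (0 : ℝ) ≤ kc m (n - 1) := by positivity
    rw [abs_le]
    constructor <;> nlinarith

theorem t_MASS : S_MASS := by
  intro μ ν hμ hν hμν h hpos hc0 hK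
  obtain ⟨L, hL, hconc⟩ := Pool.Agent.D0H74.FM.t_CONC μ ν hμ hν hμν h hpos hc0 hK 1 one_pos
  have hμ0 : 0 < μ := by linarith
  obtain ⟨c, hc⟩ : ∃ c, c = (1 + μ) / (3 + 2 * μ) := ⟨_, rfl⟩
  have hc0' : 0 < c := by rw [hc]; positivity
  have hs := log_div_sqrt
  have hsq : ∀ n : ℕ, 1 ≤ n → √(n : ℝ) * Real.log n = Real.log n / √(n : ℝ) * n := by
    intro n hn
    have h1 : (0 : ℝ) < √(n : ℝ) := Real.sqrt_pos.2 (by exact_mod_cast hn)
    have h2 : √(n : ℝ) * √(n : ℝ) = n := Real.mul_self_sqrt (Nat.cast_nonneg n)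
    rw [div_mul_eq_mul_div, eq_div_iff h1.ne']
    linear_combination (Real.log n) * h2
  have hev : ∀ᶠ n : ℕ in atTop, Real.log n / √(n : ℝ) < c / (2 * L) :=
    hs.eventually (gt_mem_nhds (by positivity))
  have hbound : ∀ᶠ n : ℕ in atTop,
      dist ((∑ m ∈ range (n + 1), h m * kc m (n - 1)) / ZZ h n) (μ / (1 + μ)) ≤
      (L * (√(n : ℝ) * Real.log n) + 1) / (c * (c * n / 2)) + Real.exp (-(1 * Real.log n ^ 2)) := by
    filter_upwards [hev, eventually_ge_atTop 2] with n h1 h2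
    rw [Real.dist_eq, hc]
    apply mass_bound μ hμ h hpos L hL.le n (by omega) _ _ (hconc n h2)
    rw [← hc, hsq n (by omega)]
    have h3 : (0 : ℝ) < n := by positivity
    have h4 : L * (Real.log n / √(n : ℝ)) ≤ c / 2 := by
      have := mul_le_mul_of_nonneg_left h1.le hL.le
      have e : L * (c / (2 * L)) = c / 2 := by field_simp
      linarith
    nlinarith
  refine tendsto_iff_dist_tendsto_zero.2 (squeeze_zero' (Eventually.of_forall fun n => dist_nonneg) hbound ?_)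
  rw [← add_zero (0 : ℝ)]
  apply Tendsto.add _ (exp_log_sq 1 one_pos)
  have h5 : Tendsto (fun n : ℕ => (L * (Real.log n / √(n : ℝ)) + 1 / (n : ℝ)) * (2 / (c * c))) atTop
      (𝓝 ((L * 0 + 0) * (2 / (c * c)))) :=
    ((hs.const_mul L).add tendsto_one_div_atTop_nhds_zero_nat).mul_const _
  simp only [mul_zero, add_zero, zero_mul] at h5
  refine h5.congr' ?_
  filter_upwards [eventually_ge_atTop 1] with n hn
  have h3 : (0 : ℝ) < n := by positivity
  rw [hsq n hn]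
  field_simp

end Pool.Agent.D0H21.FM
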